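import Pool.Agent.Helper40.MR.Defs

/-!
# DEC: Ramare decomposition
-/

set_option autoImplicit false

open Finset MeasureTheory
open scoped BigOperators Nat

namespace Pool.Agent.Helper40.MR

theorem dec_mem_IocN {a b : ℝ} (ha : 0 ≤ a) {n : ℕ} : n ∈ IocN a b ↔ a < n ∧ (n : ℝ) ≤ b := by
  unfold IocN
  rw [mem_Ioc, Nat.floor_lt ha]
  constructor
  · rintro ⟨h1, h2⟩
    refine ⟨h1, ?_⟩
    rcases Nat.eq_zero_or_pos n with h0 | h0
    · subst h0
      simp at h1
      exact absurd (ha.trans_lt h1) (lt_irrefl _)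
    · exact (Nat.le_floor_iff' h0.ne').1 h2
  · rintro ⟨h1, h2⟩
    exact ⟨h1, Nat.le_floor h2⟩

theorem dec_nit_mul {m n : ℕ} (hm : m ≠ 0) (hn : n ≠ 0) (t : ℝ) :
    nit (m * n) t = nit m t * nit n t := by
  unfold nit
  rw [← Complex.exp_add]
  congr 1
  rw [Nat.cast_mul, Real.log_mul (by exact_mod_cast hm) (by exact_mod_cast hn)]
  push_cast
  ring

theorem dec_nit_cont (n : ℕ) : Continuous (nit n) := by
  unfold nit
  fun_prop

theorem dec_mem_PrI {P Q : ℝ} (hP : 0 ≤ P) {p : ℕ} :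
    p ∈ PrI P Q ↔ p.Prime ∧ P < p ∧ (p : ℝ) ≤ Q := by
  unfold PrI
  rw [mem_filter, dec_mem_IocN hP]
  tauto

theorem dec_mem_Cls {P Q H : ℝ} {v p : ℕ} :
    p ∈ Cls P Q H v ↔ p ∈ PrI P Q ∧ Real.exp (v / H) < p ∧ (p : ℝ) ≤ Real.exp ((v + 1) / H) := by
  unfold Cls
  rw [mem_filter]

/-- classes are disjoint -/
theorem dec_cls_unique {P Q H : ℝ} (hH : 1 ≤ H) {v v' p : ℕ} (h : p ∈ Cls P Q H v)
    (h' : p ∈ Cls P Q H v') : v = v' := by
  have hH0 : 0 < H := by linarith
  obtain ⟨-, h1, h2⟩ := dec_mem_Cls.1 h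
  obtain ⟨-, h3, h4⟩ := dec_mem_Cls.1 h'
  have a1 := Real.exp_lt_exp.1 (h1.trans_le h4)
  have a2 := Real.exp_lt_exp.1 (h3.trans_le h2)
  rw [div_lt_div_iff_of_pos_right hH0] at a1 a2
  have b1 : v < v' + 1 := by exact_mod_cast a1
  have b2 : v' < v + 1 := by exact_mod_cast a2
  omega

/-- every prime is in a class -/
theorem dec_cls_exists {P Q H : ℝ} (hP : 2 ≤ P) (hH : 1 ≤ H) {p : ℕ} (h : p ∈ PrI P Q) :
    ∃ v ∈ Vs P Q H, p ∈ Cls P Q H v := by
  have hH0 : 0 < H := by linarith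
  obtain ⟨hp, h1, h2⟩ := (dec_mem_PrI (by linarith)).1 h
  have hp0 : (0 : ℝ) < p := by linarith
  have hlogP : 0 < Real.log P := Real.log_pos (by linarith)
  have hlogp : Real.log P < Real.log p := Real.log_lt_log (by linarith) h1
  have hlogQ : Real.log p ≤ Real.log Q := Real.log_le_log hp0 h2
  have hx : 0 < H * Real.log p := by nlinarith
  have hceil : 1 ≤ ⌈H * Real.log p⌉₊ := Nat.one_le_iff_ne_zero.2 (Nat.ceil_pos.2 hx).ne'
  refine ⟨⌈H * Real.log p⌉₊ - 1, ?_, ?_⟩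
  · unfold Vs
    rw [mem_Icc]
    constructor
    · have : ⌊H * Real.log P⌋₊ < ⌈H * Real.log p⌉₊ := by
        rw [Nat.lt_ceil]
        refine (Nat.floor_le (by positivity)).trans_lt ?_
        exact mul_lt_mul_of_pos_left hlogp hH0
      omega
    · have h3 : ⌈H * Real.log p⌉₊ - 1 < ⌈H * Real.log p⌉₊ := by omega
      rw [Nat.lt_ceil] at h3
      refine Nat.le_floor ?_
      exact h3.le.trans (mul_le_mul_of_nonneg_left hlogQ hH0.le)
  · rw [dec_mem_Cls]
    refine ⟨h, ?_, ?_⟩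
    · rw [← Real.lt_log_iff_exp_lt hp0, div_lt_iff₀ hH0]
      have h3 : ⌈H * Real.log p⌉₊ - 1 < ⌈H * Real.log p⌉₊ := by omega
      rw [Nat.lt_ceil] at h3
      linarith
    · rw [← Real.log_le_iff_le_exp hp0, le_div_iff₀ hH0, Nat.cast_sub hceil]
      have := Nat.le_ceil (H * Real.log p)
      push_cast
      linarith

/-- number of prime factors in `(P, Q]` without multiplicity -/
noncomputable def dec_om (P Q : ℝ) (n : ℕ) : ℕ := ((PrI P Q).filter fun p => p ∣ n).card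

/-- the intervals of the long factors -/
noncomputable def dec_M (X H : ℝ) (v : ℕ) : Finset ℕ :=
  IocN (X * Real.exp (-(v / H))) (2 * (X * Real.exp (-(v / H))))

/-- the admissible primes -/
noncomputable def dec_A (P Q H X : ℝ) (n : ℕ) : Finset ℕ :=
  (PrI P Q).filter fun p => ∃ v ∈ Vs P Q H, p ∈ Cls P Q H v ∧ p ∣ n ∧ n / p ∈ dec_M X H v

theorem dec_A_le (P Q H X : ℝ) (n : ℕ) : (dec_A P Q H X n).card ≤ dec_om P Q n := by
  unfold dec_A dec_om
  refine card_le_card ?_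
  intro p hp
  rw [mem_filter] at hp ⊢
  obtain ⟨h1, v, -, -, h2, -⟩ := hp
  exact ⟨h1, h2⟩

theorem dec_om_le (P Q : ℝ) (hP : 2 ≤ P) (n : ℕ) (hn : n ≠ 0) : dec_om P Q n ≤ Om P Q n := by
  unfold dec_om Om
  rw [card_filter]
  refine sum_le_sum fun p hp => ?_
  split_ifs with h
  · exact ((dec_mem_PrI (by linarith)).1 hp).1.factorization_pos_of_dvd hn h
  · exact Nat.zero_le _

theorem dec_om_eq (P Q : ℝ) (hP : 2 ≤ P) (n : ℕ) (hn : n ≠ 0)
    (hsq : ∀ p ∈ PrI P Q, ¬ p ^ 2 ∣ n) : dec_om P Q n = Om P Q n := by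
  unfold dec_om Om
  rw [card_filter]
  refine sum_congr rfl fun p hp => ?_
  have hpp := ((dec_mem_PrI (by linarith)).1 hp).1
  split_ifs with h
  · have h1 := hpp.factorization_pos_of_dvd hn h
    have h2 : n.factorization p < 2 := by
      by_contra hcon
      exact hsq p hp ((hpp.pow_dvd_iff_le_factorization hn).2 (by omega))
    omega
  · exact (Nat.factorization_eq_zero_of_not_dvd h).symm

theorem dec_Om_mul (P Q : ℝ) (hP : 2 ≤ P) (p m : ℕ) (hp : p ∈ PrI P Q) (hm : m ≠ 0) :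
    Om P Q (p * m) = Om P Q m + 1 := by
  unfold Om
  have hpp := ((dec_mem_PrI (by linarith)).1 hp).1
  have h1 : ∀ r ∈ PrI P Q, (p * m).factorization r = m.factorization r + if r = p then 1 else 0 := by
    intro r _
    rw [Nat.factorization_mul hpp.ne_zero hm, Finsupp.add_apply, hpp.factorization,
      Finsupp.single_apply]
    by_cases h : p = r
    · rw [if_pos h, if_pos h.symm]; ring
    · rw [if_neg h, if_neg (fun h' => h h'.symm)]; ring
  rw [sum_congr rfl h1, sum_add_distrib, sum_ite_eq', if_pos hp]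

theorem dec_hit (P Q : ℝ) (hP : 2 ≤ P) (n : ℕ) : Hit P Q n ↔ 0 < dec_om P Q n := by
  unfold Hit dec_om
  rw [card_pos]
  constructor
  · rintro ⟨p, hp, h1, h2, h3⟩
    exact ⟨p, mem_filter.2 ⟨(dec_mem_PrI (by linarith)).2 ⟨hp, h1, h2⟩, h3⟩⟩
  · rintro ⟨p, hp⟩
    rw [mem_filter, dec_mem_PrI (by linarith)] at hp
    exact ⟨p, hp.1.1, hp.1.2.1, hp.1.2.2, hp.2⟩

open Classical in
/-- the common value of the products -/
noncomputable def dec_g (P Q : ℝ) (f : ℕ → ℂ) (s : ℕ → Prop) (n : ℕ) : ℂ :=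
  if s n then f n / (Om P Q n : ℂ) else 0

theorem dec_prod (P Q : ℝ) (hP : 2 ≤ P) (f : ℕ → ℂ) (hf : CM f) (s : ℕ → Prop) (hs : Inv P Q s)
    (p m : ℕ) (hp : p ∈ PrI P Q) (hm : m ≠ 0) :
    f p * bco P Q f s m = dec_g P Q f s (p * m) := by
  classical
  unfold bco dec_g
  have hpp := (dec_mem_PrI (by linarith)).1 hp
  have h1 := hs p m hpp.1 hpp.2.1 hpp.2.2 (Nat.pos_of_ne_zero hm)
  by_cases h : s m
  · rw [if_pos h, if_pos (h1.2 h), hf.2.1, dec_Om_mul P Q hP p m hp hm]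
    push_cast
    ring
  · rw [if_neg h, if_neg (fun h' => h (h1.1 h')), mul_zero]

/-- the inner sums -/
theorem dec_sum (P Q H X : ℝ) (hP : 2 ≤ P) (hH : 1 ≤ H) (hX : 1 ≤ X) (f : ℕ → ℂ) (hf : CM f)
    (s : ℕ → Prop) (hs : Inv P Q s) (n : ℕ) :
    ∑ v ∈ Vs P Q H, ∑ p ∈ Cls P Q H v, ∑ m ∈ dec_M X H v,
      (if p * m = n then f p * bco P Q f s m else 0) =
      (dec_A P Q H X n).card * dec_g P Q f s n := by
  classical
  have hMpos : ∀ v m, m ∈ dec_M X H v → m ≠ 0 := by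
    intro v m hm
    unfold dec_M at hm
    rw [dec_mem_IocN (by positivity)] at hm
    have : (0 : ℝ) < m := lt_of_le_of_lt (by positivity) hm.1
    exact_mod_cast this.ne'
  have h1 : ∀ v ∈ Vs P Q H, ∑ p ∈ Cls P Q H v, ∑ m ∈ dec_M X H v,
      (if p * m = n then f p * bco P Q f s m else 0) =
      (((Cls P Q H v).filter fun p => p ∣ n ∧ n / p ∈ dec_M X H v).card : ℂ) * dec_g P Q f s n := by
    intro v _
    rw [card_filter, Nat.cast_sum, sum_mul]
    refine sum_congr rfl fun p hp => ?_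
    have hpI := (dec_mem_Cls.1 hp).1
    have hpp := ((dec_mem_PrI (by linarith)).1 hpI).1
    by_cases hd : p ∣ n ∧ n / p ∈ dec_M X H v
    · rw [if_pos hd]
      rw [sum_eq_single (n / p)]
      · rw [if_pos (Nat.mul_div_cancel' hd.1), dec_prod P Q hP f hf s hs p _ hpI (hMpos v _ hd.2),
          Nat.mul_div_cancel' hd.1]
        simp
      · intro m _ hne
        rw [if_neg]
        rintro rfl
        exact hne (by rw [Nat.mul_div_cancel_left _ hpp.pos])
      · intro h; exact absurd hd.2 h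
    · rw [if_neg hd]
      simp only [Nat.cast_zero, zero_mul]
      refine sum_eq_zero fun m hm => ?_
      rw [if_neg]
      rintro rfl
      exact hd ⟨dvd_mul_right _ _, by rwa [Nat.mul_div_cancel_left _ hpp.pos]⟩
  rw [sum_congr rfl h1, ← sum_mul]
  congr 1
  rw [← Nat.cast_sum]
  congr 1
  rw [← card_biUnion]
  · congr 1
    ext p
    simp only [mem_biUnion, mem_filter, dec_A]
    constructor
    · rintro ⟨v, hv, hp, h2, h3⟩
      exact ⟨(dec_mem_Cls.1 hp).1, v, hv, hp, h2, h3⟩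
    · rintro ⟨-, v, hv, hp, h2, h3⟩
      exact ⟨v, hv, hp, h2, h3⟩
  · intro v _ v' _ hne
    rw [Function.onFun, disjoint_left]
    intro p hp hp'
    exact hne (dec_cls_unique hH (mem_filter.1 hp).1 (mem_filter.1 hp').1)

theorem dec_exp_le (H : ℝ) (hH : 1 ≤ H) : Real.exp (1 / H) - 1 ≤ 2 / H := by
  have h1 : (0 : ℝ) ≤ 1 / H := by positivity
  have h2 : 1 / H ≤ 1 := by rw [div_le_one (by linarith)]; exact hH
  have h3 := Real.abs_exp_sub_one_le (x := 1 / H) (by rw [abs_of_nonneg h1]; exact h2)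
  rw [abs_of_nonneg h1] at h3
  have h4 := le_of_abs_le h3
  calc Real.exp (1 / H) - 1 ≤ 2 * (1 / H) := h4
    _ = 2 / H := by ring

/-- integers in an interval -/
theorem dec_card_IocN (a b : ℝ) (ha : 0 ≤ a) (hab : a ≤ b) : ((IocN a b).card : ℝ) ≤ b - a + 1 := by
  unfold IocN
  rw [Nat.card_Ioc]
  have h1 : ⌊a⌋₊ ≤ ⌊b⌋₊ := Nat.floor_mono hab
  rw [Nat.cast_sub h1]
  have h2 := Nat.floor_le (ha.trans hab)
  have h3 := Nat.lt_floor_add_one a
  linarith

/-- sum of inverse squares of primes -/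
theorem dec_inv_sq (P Q : ℝ) (hP : 2 ≤ P) (hPQ : P < Q) :
    ∑ p ∈ PrI P Q, ((p : ℝ) ^ 2)⁻¹ ≤ 2 / P := by
  have h1 : ∑ p ∈ PrI P Q, ((p : ℝ) ^ 2)⁻¹ ≤ ∑ p ∈ IocN P Q, ((p : ℝ) ^ 2)⁻¹ := by
    refine sum_le_sum_of_subset_of_nonneg (filter_subset _ _) fun _ _ _ => by positivity
  refine h1.trans ?_
  unfold IocN
  have h2 : 2 ≤ ⌊P⌋₊ := Nat.le_floor (by exact_mod_cast hP)
  have h3 := sum_Ioc_inv_sq_le_sub (α := ℝ) (k := ⌊P⌋₊) (n := ⌊Q⌋₊) (by omega)
    (Nat.floor_mono hPQ.le)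
  refine h3.trans ?_
  have h4 : (0 : ℝ) ≤ ((⌊Q⌋₊ : ℕ) : ℝ)⁻¹ := by positivity
  have h5 : ((⌊P⌋₊ : ℕ) : ℝ)⁻¹ ≤ 2 / P := by
    rw [inv_eq_one_div, div_le_div_iff₀ (by positivity) (by linarith)]
    have := Nat.lt_floor_add_one P
    have h2' : (2 : ℝ) ≤ ⌊P⌋₊ := by exact_mod_cast h2
    linarith
  linarith

theorem dec_A_range (P Q H X : ℝ) (hP : 2 ≤ P) (_hH : 1 ≤ H) (hX : 1 ≤ X) (n p : ℕ)
    (hp : p ∈ dec_A P Q H X n) : X < n ∧ (n : ℝ) ≤ 2 * X * Real.exp (1 / H) := by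
  unfold dec_A at hp
  rw [mem_filter] at hp
  obtain ⟨hpI, v, hv, hpc, hpn, hm⟩ := hp
  have hpp := (dec_mem_PrI (by linarith)).1 hpI
  obtain ⟨-, h1, h2⟩ := dec_mem_Cls.1 hpc
  unfold dec_M at hm
  rw [dec_mem_IocN (by positivity)] at hm
  obtain ⟨h3, h4⟩ := hm
  have hn : (n : ℝ) = p * ((n / p : ℕ) : ℝ) := by
    rw [← Nat.cast_mul, Nat.mul_div_cancel' hpn]
  have hp0 : (0 : ℝ) < p := lt_trans (Real.exp_pos _) h1
  have hm0 : (0 : ℝ) < ((n / p : ℕ) : ℝ) := lt_of_le_of_lt (by positivity) h3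
  have e1 : X = Real.exp (v / H) * (X * Real.exp (-(v / H))) := by
    rw [mul_left_comm, ← Real.exp_add]; simp
  have e2 : 2 * X * Real.exp (1 / H) =
      Real.exp ((v + 1) / H) * (2 * (X * Real.exp (-(v / H)))) := by
    have : Real.exp ((v + 1) / H) * (2 * (X * Real.exp (-(v / H)))) =
        2 * X * (Real.exp ((v + 1) / H) * Real.exp (-(v / H))) := by ring
    rw [this, ← Real.exp_add]
    congr 2
    ring
  rw [hn]
  constructor
  · calc X = Real.exp (v / H) * (X * Real.exp (-(v / H))) := e1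
      _ < p * ((n / p : ℕ) : ℝ) := by
        refine mul_lt_mul'' h1 h3 (Real.exp_pos _).le (by positivity)
  · rw [e2]
    exact mul_le_mul h2 h4 hm0.le (Real.exp_pos _).le

theorem dec_A_full (P Q H X : ℝ) (hP : 2 ≤ P) (hH : 1 ≤ H) (hX : 1 ≤ X) (n : ℕ)
    (h1 : X * Real.exp (1 / H) < n) (h2 : (n : ℝ) ≤ 2 * X) :
    (dec_A P Q H X n).card = dec_om P Q n := by
  unfold dec_A dec_om
  congr 1
  ext p
  rw [mem_filter, mem_filter]
  constructor
  · rintro ⟨h3, v, -, -, h4, -⟩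
    exact ⟨h3, h4⟩
  · rintro ⟨hpI, hpn⟩
    refine ⟨hpI, ?_⟩
    obtain ⟨v, hv, hc⟩ := dec_cls_exists hP hH hpI
    refine ⟨v, hv, hc, hpn, ?_⟩
    obtain ⟨-, h3, h4⟩ := dec_mem_Cls.1 hc
    have hp0 : (0 : ℝ) < p := lt_trans (Real.exp_pos _) h3
    unfold dec_M
    rw [dec_mem_IocN (by positivity)]
    have hn : ((n / p : ℕ) : ℝ) = n / p := Nat.cast_div hpn hp0.ne'
    rw [hn, lt_div_iff₀ hp0, div_le_iff₀ hp0]
    have e1 : X * Real.exp (-(v / H)) * Real.exp ((v + 1) / H) = X * Real.exp (1 / H) := by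
      rw [mul_assoc, ← Real.exp_add]
      congr 2
      ring
    have e2 : 2 * (X * Real.exp (-(v / H))) * Real.exp (v / H) = 2 * X := by
      rw [mul_assoc, mul_assoc, ← Real.exp_add]
      simp
    constructor
    · refine lt_of_le_of_lt ?_ h1
      rw [← e1]
      exact mul_le_mul_of_nonneg_left h4 (by positivity)
    · refine h2.trans ?_
      rw [← e2]
      exact mul_le_mul_of_nonneg_left h3.le (by positivity)

open Classical in
/-- the error coefficients -/
noncomputable def dec_e (P Q H X : ℝ) (f : ℕ → ℂ) (s : ℕ → Prop) (n : ℕ) : ℂ :=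
  (if n ∈ IocN X (2 * X) then res (fun n => s n ∧ Hit P Q n) f n else 0) -
    (dec_A P Q H X n).card * dec_g P Q f s n

theorem dec_e_norm (P Q H X : ℝ) (hP : 2 ≤ P) (f : ℕ → ℂ) (hf : CM f) (s : ℕ → Prop) (n : ℕ)
    (hn : n ≠ 0) : ‖dec_e P Q H X f s n‖ ≤ 1 := by
  classical
  have hA : (dec_A P Q H X n).card ≤ Om P Q n :=
    (dec_A_le P Q H X n).trans (dec_om_le P Q hP n hn)
  have hfn := hf.2.2 n
  unfold dec_e dec_g
  by_cases hs : s n
  · rw [if_pos hs]
    rcases Nat.eq_zero_or_pos (Om P Q n) with h0 | h0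
    · have hA0 : (dec_A P Q H X n).card = 0 := by omega
      have hh : ¬ Hit P Q n := by
        rw [dec_hit P Q hP]
        have := dec_om_le P Q hP n hn
        omega
      rw [hA0]
      have : res (fun n => s n ∧ Hit P Q n) f n = 0 := by
        unfold res
        rw [if_neg (fun h => hh h.2)]
      rw [this]
      simp
    · have hOm : (0 : ℝ) < Om P Q n := by exact_mod_cast h0
      have hq0 : (0 : ℝ) ≤ (dec_A P Q H X n).card / (Om P Q n : ℝ) := by positivity
      have hq1 : ((dec_A P Q H X n).card : ℝ) / (Om P Q n : ℝ) ≤ 1 := by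
        rw [div_le_one hOm]; exact_mod_cast hA
      have e1 : ((dec_A P Q H X n).card : ℂ) * (f n / (Om P Q n : ℂ)) =
          f n * (((dec_A P Q H X n).card / (Om P Q n : ℝ) : ℝ) : ℂ) := by
        push_cast; ring
      rw [e1]
      have hcase : (if n ∈ IocN X (2 * X) then res (fun n => s n ∧ Hit P Q n) f n else 0) = f n ∨
          (if n ∈ IocN X (2 * X) then res (fun n => s n ∧ Hit P Q n) f n else 0) = 0 := by
        unfold res
        split_ifs <;> simp
      rcases hcase with h | h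
      · rw [h]
        have e2 : f n - f n * (((dec_A P Q H X n).card / (Om P Q n : ℝ) : ℝ) : ℂ) =
            f n * ((1 - (dec_A P Q H X n).card / (Om P Q n : ℝ) : ℝ) : ℂ) := by
          push_cast; ring
        rw [e2, norm_mul, Complex.norm_real, Real.norm_of_nonneg (by linarith)]
        exact mul_le_one₀ hfn (by linarith) (by linarith)
      · rw [h, zero_sub, norm_neg, norm_mul, Complex.norm_real, Real.norm_of_nonneg hq0]
        exact mul_le_one₀ hfn hq0 hq1
  · rw [if_neg hs]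
    have : res (fun n => s n ∧ Hit P Q n) f n = 0 := by
      unfold res
      rw [if_neg (fun h => hs h.1)]
    rw [this]
    simp

theorem dec_e_zero (P Q H X : ℝ) (hP : 2 ≤ P) (hH : 1 ≤ H) (hX : 1 ≤ X) (f : ℕ → ℂ)
    (s : ℕ → Prop) (n : ℕ) (hn : n ≠ 0) (he : dec_e P Q H X f s n ≠ 0) :
    X < n ∧ (n ∈ IocN X (X * Real.exp (1 / H)) ∨
      n ∈ IocN (2 * X) (2 * X * Real.exp (1 / H)) ∨
      ((n : ℝ) ≤ 2 * X ∧ ∃ p ∈ PrI P Q, p ^ 2 ∣ n)) := by
  classical
  have hX0 : 0 ≤ X := by linarith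
  rcases lt_or_ge (2 * X) (n : ℝ) with h2 | h2
  · -- beyond `2 X`
    have hnot : n ∉ IocN X (2 * X) := by
      rw [dec_mem_IocN hX0]
      rintro ⟨-, h⟩
      linarith
    have hA : (dec_A P Q H X n).Nonempty := by
      rw [nonempty_iff_ne_empty]
      intro h
      apply he
      unfold dec_e
      rw [if_neg hnot, h]
      simp
    obtain ⟨p, hp⟩ := hA
    obtain ⟨h3, h4⟩ := dec_A_range P Q H X hP hH hX n p hp
    refine ⟨h3, Or.inr (Or.inl ?_)⟩
    rw [dec_mem_IocN (by linarith)]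
    exact ⟨h2, h4⟩
  rcases lt_or_ge X (n : ℝ) with h1 | h1
  · refine ⟨h1, ?_⟩
    rcases le_or_gt (n : ℝ) (X * Real.exp (1 / H)) with h3 | h3
    · left
      rw [dec_mem_IocN hX0]
      exact ⟨h1, h3⟩
    · right; right
      refine ⟨h2, ?_⟩
      by_contra hcon
      push Not at hcon
      apply he
      have hA := dec_A_full P Q H X hP hH hX n h3 h2
      have hOm := dec_om_eq P Q hP n hn hcon
      unfold dec_e dec_g res
      rw [if_pos ((dec_mem_IocN hX0).2 ⟨h1, h2⟩), hA, hOm]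
      by_cases hs : s n
      · rw [if_pos hs]
        by_cases hh : Hit P Q n
        · rw [if_pos ⟨hs, hh⟩]
          have h5 : 0 < Om P Q n := by
            rw [← hOm]; exact (dec_hit P Q hP n).1 hh
          have h6 : (Om P Q n : ℂ) ≠ 0 := by exact_mod_cast h5.ne'
          rw [mul_div_cancel₀ _ h6]
          simp
        · rw [if_neg (fun h => hh h.2)]
          have h5 : Om P Q n = 0 := by
            rw [← hOm]
            by_contra h
            exact hh ((dec_hit P Q hP n).2 (Nat.pos_of_ne_zero h))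
          rw [h5]
          simp
      · rw [if_neg hs, if_neg (fun h => hs h.1)]
        simp
  · exfalso
    apply he
    have hnot : n ∉ IocN X (2 * X) := by
      rw [dec_mem_IocN hX0]
      rintro ⟨h, -⟩
      linarith
    have hA : dec_A P Q H X n = ∅ := by
      rw [← not_nonempty_iff_eq_empty]
      rintro ⟨p, hp⟩
      have := (dec_A_range P Q H X hP hH hX n p hp).1
      linarith
    unfold dec_e
    rw [if_neg hnot, hA]
    simp

theorem dec_six (X H : ℝ) (hX : 1 ≤ X) (hH : 1 ≤ H) : 2 * X * Real.exp (1 / H) ≤ 6 * X := by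
  have h1 : Real.exp (1 / H) ≤ Real.exp 1 := by
    apply Real.exp_le_exp.2
    rw [div_le_one (by linarith)]; exact hH
  have h2 := Real.exp_one_lt_d9
  nlinarith

theorem dec_identity (P Q H X : ℝ) (hP : 2 ≤ P) (hH : 1 ≤ H) (hX : 1 ≤ X) (f : ℕ → ℂ)
    (hf : CM f) (s : ℕ → Prop) (hs : Inv P Q s) (t : ℝ) :
    DP (IocN X (2 * X)) (res (fun n => s n ∧ Hit P Q n) f) t -
      ∑ v ∈ Vs P Q H, DP (Cls P Q H v) f t * DP (dec_M X H v) (bco P Q f s) t =
    ∑ n ∈ Icc 1 ⌊6 * X⌋₊, (dec_e P Q H X f s n / n) * nit n t := by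
  classical
  have hX0 : 0 ≤ X := by linarith
  have h1 : ∀ n, (dec_e P Q H X f s n / n) * nit n t =
      (if n ∈ IocN X (2 * X) then res (fun n => s n ∧ Hit P Q n) f n / n * nit n t else 0) -
      ∑ v ∈ Vs P Q H, ∑ p ∈ Cls P Q H v, ∑ m ∈ dec_M X H v,
        (if p * m = n then f p * bco P Q f s m / n * nit n t else 0) := by
    intro n
    unfold dec_e
    rw [← dec_sum P Q H X hP hH hX f hf s hs n, sub_div, sub_mul]
    congr 1
    · split_ifs <;> simp
    · rw [sum_div, sum_mul]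
      refine sum_congr rfl fun v _ => ?_
      rw [sum_div, sum_mul]
      refine sum_congr rfl fun p _ => ?_
      rw [sum_div, sum_mul]
      refine sum_congr rfl fun m _ => ?_
      split_ifs <;> simp
  rw [sum_congr rfl fun n _ => h1 n, sum_sub_distrib]
  congr 1
  · rw [← sum_filter]
    unfold DP
    refine sum_congr ?_ fun _ _ => rfl
    ext n
    rw [mem_filter, mem_Icc]
    constructor
    · intro h
      refine ⟨⟨?_, ?_⟩, h⟩
      · have := ((dec_mem_IocN hX0).1 h).1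
        have h0 : (0 : ℝ) < n := by linarith
        exact_mod_cast h0
      · refine Nat.le_floor ?_
        have := ((dec_mem_IocN hX0).1 h).2
        linarith
    · exact fun h => h.2
  · rw [sum_comm]
    refine sum_congr rfl fun v _ => ?_
    rw [sum_comm]
    unfold DP
    rw [sum_mul_sum]
    refine sum_congr rfl fun p hp => ?_
    rw [sum_comm]
    refine sum_congr rfl fun m hm => ?_
    have hpI := (dec_mem_Cls.1 hp).1
    have hpp := ((dec_mem_PrI (by linarith)).1 hpI).1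
    obtain ⟨-, h3, h4⟩ := dec_mem_Cls.1 hp
    unfold dec_M at hm
    rw [dec_mem_IocN (by positivity)] at hm
    have hm0 : (0 : ℝ) < m := lt_of_le_of_lt (by positivity) hm.1
    have hmne : m ≠ 0 := by
      have : (0 : ℕ) < m := by exact_mod_cast hm0
      omega
    have hmem : p * m ∈ Icc 1 ⌊6 * X⌋₊ := by
      rw [mem_Icc]
      refine ⟨Nat.mul_pos hpp.pos (Nat.pos_of_ne_zero hmne), Nat.le_floor ?_⟩
      refine le_trans ?_ (dec_six X H hX hH)
      have e2 : 2 * X * Real.exp (1 / H) =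
          Real.exp ((v + 1) / H) * (2 * (X * Real.exp (-(v / H)))) := by
        have : Real.exp ((v + 1) / H) * (2 * (X * Real.exp (-(v / H)))) =
            2 * X * (Real.exp ((v + 1) / H) * Real.exp (-(v / H))) := by ring
        rw [this, ← Real.exp_add]
        congr 2
        ring
      rw [e2, Nat.cast_mul]
      exact mul_le_mul h4 hm.2 hm0.le (Real.exp_pos _).le
    rw [sum_ite_eq, if_pos hmem, dec_nit_mul hpp.ne_zero hmne]
    have hpC : (p : ℂ) ≠ 0 := by exact_mod_cast hpp.ne_zero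
    have hmC : (m : ℂ) ≠ 0 := by exact_mod_cast hmne
    push_cast
    field_simp

/-- the exceptional integers -/
noncomputable def dec_B (P Q H X : ℝ) : Finset ℕ :=
  IocN X (X * Real.exp (1 / H)) ∪ (IocN (2 * X) (2 * X * Real.exp (1 / H)) ∪
    (PrI P Q).biUnion fun p => (Icc 1 ⌊2 * X⌋₊).filter fun n => p ^ 2 ∣ n)

theorem dec_B_card (P Q H X : ℝ) (hP : 2 ≤ P) (hPQ : P < Q) (hH : 1 ≤ H) (hX : 1 ≤ X) :
    ((dec_B P Q H X).card : ℝ) ≤ 6 * X * (1 / H + 1 / P + 1 / X) := by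
  classical
  have hX0 : 0 ≤ X := by linarith
  have he1 : 1 ≤ Real.exp (1 / H) := Real.one_le_exp (by positivity)
  have he2 := dec_exp_le H hH
  have h1 : ((IocN X (X * Real.exp (1 / H))).card : ℝ) ≤ X * (2 / H) + 1 := by
    refine (dec_card_IocN _ _ hX0 (by nlinarith)).trans ?_
    have : X * Real.exp (1 / H) - X = X * (Real.exp (1 / H) - 1) := by ring
    rw [this]
    have := mul_le_mul_of_nonneg_left he2 hX0
    linarith
  have h2 : ((IocN (2 * X) (2 * X * Real.exp (1 / H))).card : ℝ) ≤ 2 * X * (2 / H) + 1 := by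
    refine (dec_card_IocN _ _ (by linarith) (by nlinarith)).trans ?_
    have : 2 * X * Real.exp (1 / H) - 2 * X = 2 * X * (Real.exp (1 / H) - 1) := by ring
    rw [this]
    have := mul_le_mul_of_nonneg_left he2 (show 0 ≤ 2 * X by linarith)
    linarith
  have h3 : ((((PrI P Q).biUnion fun p => (Icc 1 ⌊2 * X⌋₊).filter fun n => p ^ 2 ∣ n)).card : ℝ) ≤
      2 * X * (2 / P) := by
    have h4 : ((((PrI P Q).biUnion fun p => (Icc 1 ⌊2 * X⌋₊).filter fun n => p ^ 2 ∣ n)).card : ℝ) ≤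
        ∑ p ∈ PrI P Q, (((Icc 1 ⌊2 * X⌋₊).filter fun n => p ^ 2 ∣ n).card : ℝ) := by
      exact_mod_cast card_biUnion_le
    refine h4.trans ?_
    have h5 : ∀ p ∈ PrI P Q, (((Icc 1 ⌊2 * X⌋₊).filter fun n => p ^ 2 ∣ n).card : ℝ) ≤
        2 * X * ((p : ℝ) ^ 2)⁻¹ := by
      intro p hp
      have h6 : ((Icc 1 ⌊2 * X⌋₊).filter fun n => p ^ 2 ∣ n).card = ⌊2 * X⌋₊ / p ^ 2 := by
        have := Nat.Ioc_filter_dvd_card_eq_div ⌊2 * X⌋₊ (p ^ 2)
        rw [← this]
        rfl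
      rw [h6]
      refine (Nat.cast_div_le).trans ?_
      rw [div_eq_mul_inv]
      push_cast
      exact mul_le_mul_of_nonneg_right (Nat.floor_le (by linarith)) (by positivity)
    refine (sum_le_sum h5).trans ?_
    rw [← mul_sum]
    exact mul_le_mul_of_nonneg_left (dec_inv_sq P Q hP hPQ) (by linarith)
  have h7 : ((dec_B P Q H X).card : ℝ) ≤ ((IocN X (X * Real.exp (1 / H))).card : ℝ) +
      (((IocN (2 * X) (2 * X * Real.exp (1 / H))).card : ℝ) +
      ((((PrI P Q).biUnion fun p => (Icc 1 ⌊2 * X⌋₊).filter fun n => p ^ 2 ∣ n)).card : ℝ)) := by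
    unfold dec_B
    have := card_union_le (IocN X (X * Real.exp (1 / H))) (IocN (2 * X) (2 * X * Real.exp (1 / H)) ∪
      (PrI P Q).biUnion fun p => (Icc 1 ⌊2 * X⌋₊).filter fun n => p ^ 2 ∣ n)
    have h8 := card_union_le (IocN (2 * X) (2 * X * Real.exp (1 / H)))
      ((PrI P Q).biUnion fun p => (Icc 1 ⌊2 * X⌋₊).filter fun n => p ^ 2 ∣ n)
    exact_mod_cast this.trans (Nat.add_le_add_left h8 _)
  have hXX : X * (1 / X) = 1 := by field_simp
  have e1 : 6 * X * (1 / H + 1 / P + 1 / X) = X * (2 / H) + 2 * X * (2 / H) + 6 * X * (1 / P)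
      + 6 * (X * (1 / X)) := by ring
  have e2 : 2 * X * (2 / P) = 4 * X * (1 / P) := by ring
  have e3 : 0 ≤ X * (1 / P) := mul_nonneg hX0 (by positivity)
  rw [e1, hXX]
  linarith

theorem st_DEC (hMV : ST_MV) : ST_DEC := by
  classical
  obtain ⟨C, hC, hMV⟩ := hMV
  refine ⟨36 * C, by positivity, ?_⟩
  intro P Q H X f s hP hPQ hH hX hf hs
  have hX0 : 0 < X := by linarith
  refine ⟨fun t => ∑ n ∈ Icc 1 ⌊6 * X⌋₊, (dec_e P Q H X f s n / n) * nit n t, ?_, ?_, ?_⟩
  · exact continuous_finsetSum _ fun n _ => continuous_const.mul (dec_nit_cont n)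
  · intro t
    have h0 := dec_identity P Q H X hP hH hX f hf s hs t
    unfold dec_M at h0
    beta_reduce
    rw [← h0]
    ring
  · intro T hT
    refine (hMV ⌊6 * X⌋₊ T (fun n => dec_e P Q H X f s n / n) hT).trans ?_
    have h1 : ∑ n ∈ Icc 1 ⌊6 * X⌋₊, ‖dec_e P Q H X f s n / (n : ℂ)‖ ^ 2 ≤
        (dec_B P Q H X).card * (1 / X ^ 2) := by
      have h2 : ∀ n ∈ Icc 1 ⌊6 * X⌋₊, ‖dec_e P Q H X f s n / (n : ℂ)‖ ^ 2 ≤
          if n ∈ dec_B P Q H X then 1 / X ^ 2 else 0 := by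
        intro n hn
        have hn0 : n ≠ 0 := by
          have := (mem_Icc.1 hn).1
          omega
        by_cases he : dec_e P Q H X f s n = 0
        · rw [he, zero_div, norm_zero, zero_pow two_ne_zero]
          split_ifs
          · positivity
          · exact le_rfl
        · obtain ⟨h3, h4⟩ := dec_e_zero P Q H X hP hH hX f s n hn0 he
          have hmem : n ∈ dec_B P Q H X := by
            unfold dec_B
            rw [mem_union, mem_union, mem_biUnion]
            rcases h4 with h4 | h4 | ⟨h4, p, hp, h5⟩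
            · exact Or.inl h4
            · exact Or.inr (Or.inl h4)
            · refine Or.inr (Or.inr ⟨p, hp, mem_filter.2 ⟨mem_Icc.2 ⟨by omega, ?_⟩, h5⟩⟩)
              exact Nat.le_floor h4
          rw [if_pos hmem, norm_div, div_pow, Complex.norm_natCast]
          have h6 := dec_e_norm P Q H X hP f hf s n hn0
          have h7 : ‖dec_e P Q H X f s n‖ ^ 2 ≤ 1 := pow_le_one₀ (norm_nonneg _) h6
          have h8 : X ^ 2 ≤ (n : ℝ) ^ 2 := pow_le_pow_left₀ hX0.le h3.le 2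
          exact div_le_div₀ zero_le_one h7 (by positivity) h8
      refine (sum_le_sum h2).trans ?_
      rw [← sum_filter, sum_const, nsmul_eq_mul]
      refine mul_le_mul_of_nonneg_right ?_ (by positivity)
      have : ((Icc 1 ⌊6 * X⌋₊).filter fun n => n ∈ dec_B P Q H X) ⊆ dec_B P Q H X := by
        intro n hn
        exact (mem_filter.1 hn).2
      exact_mod_cast card_le_card this
    have h2 := dec_B_card P Q H X hP hPQ hH hX
    have h3 : (dec_B P Q H X).card * (1 / X ^ 2) ≤ 6 * (1 / H + 1 / P + 1 / X) / X := by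
      have := mul_le_mul_of_nonneg_right h2 (show (0 : ℝ) ≤ 1 / X ^ 2 by positivity)
      refine this.trans (le_of_eq ?_)
      field_simp
    have h4 : ((⌊6 * X⌋₊ : ℕ) : ℝ) ≤ 6 * X := Nat.floor_le (by linarith)
    have hpos : 0 ≤ 1 / H + 1 / P + 1 / X := by positivity
    calc C * (T + (⌊6 * X⌋₊ : ℕ)) * ∑ n ∈ Icc 1 ⌊6 * X⌋₊, ‖dec_e P Q H X f s n / (n : ℂ)‖ ^ 2
        ≤ C * (T + 6 * X) * (6 * (1 / H + 1 / P + 1 / X) / X) := by
          refine mul_le_mul ?_ (h1.trans h3) (sum_nonneg fun _ _ => sq_nonneg _) (by positivity)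
          exact mul_le_mul_of_nonneg_left (by linarith) hC.le
      _ ≤ C * (6 * T + 6 * X) * (6 * (1 / H + 1 / P + 1 / X) / X) := by
          refine mul_le_mul_of_nonneg_right ?_ (by positivity)
          exact mul_le_mul_of_nonneg_left (by linarith) hC.le
      _ = 36 * C * (T / X + 1) * (1 / H + 1 / P + 1 / X) := by
          field_simp
          ring

end Pool.Agent.Helper40.MR
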