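import Pool.Agent.Helper40.MR.Defs

/-!
# HM2: Halasz-Montgomery inequality over the primes
-/

set_option autoImplicit false

open Finset MeasureTheory
open scoped BigOperators Nat

namespace Pool.Agent.Helper40.MR

theorem hm2_xiu_mul {x y : ℝ} (hx : 0 < x) (hy : 0 < y) (u : ℝ) :
    xiu (x * y) u = xiu x u * xiu y u := by
  unfold xiu
  rw [← Complex.exp_add, Real.log_mul hx.ne' hy.ne']
  congr 1
  push_cast
  ring

theorem hm2_xiu_norm (x u : ℝ) : ‖xiu x u‖ = 1 := by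
  unfold xiu
  rw [Complex.norm_exp_ofReal_mul_I]

theorem hm2_nit (n : ℕ) (t r : ℝ) : nit n (t - r) = xiu n (r - t) := by
  unfold nit xiu
  congr 1
  push_cast
  ring

theorem hm2_tri_nonneg (s : ℝ) : 0 ≤ tri s := le_max_left _ _

/-- bound for `Fh` -/
theorem hm2_Fh (u : ℝ) : |Fh u| ≤ 5 * (1 + u ^ 2)⁻¹ := by
  have hpos : 0 < 1 + u ^ 2 := by positivity
  rw [← div_eq_mul_inv, le_div_iff₀ hpos]
  unfold Fh
  split_ifs with h
  · rw [h]; norm_num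
  · have hu : 0 < u ^ 2 := by positivity
    have h1 : 0 ≤ 1 - Real.cos (4 * u) := by linarith [Real.cos_le_one (4 * u)]
    have h2 : 1 - Real.cos (4 * u) ≤ 2 := by linarith [Real.neg_one_le_cos (4 * u)]
    have h3 : 1 - Real.cos (4 * u) ≤ 8 * u ^ 2 := by
      have := Real.one_sub_sq_div_two_le_cos (x := 4 * u)
      nlinarith
    rw [abs_of_nonneg (by positivity), mul_add, mul_one]
    have e1 : (1 - Real.cos (4 * u)) / (2 * u ^ 2) ≤ 4 := by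
      rw [div_le_iff₀ (by positivity)]
      linarith
    have e2 : (1 - Real.cos (4 * u)) / (2 * u ^ 2) * u ^ 2 ≤ 1 := by
      have : (1 - Real.cos (4 * u)) / (2 * u ^ 2) * u ^ 2 = (1 - Real.cos (4 * u)) / 2 := by
        field_simp
      rw [this]; linarith
    linarith

/-- the sums over multiples -/
theorem hm2_mult (Y u : ℝ) (hY : 0 < Y) (l : ℕ) (hl : 1 ≤ l) :
    ∑ n ∈ Icc 1 ⌊Real.exp 4 * Y⌋₊, (if l ∣ n then
      ((tri (Real.log (n / Y)) / n : ℝ) : ℂ) * xiu n u else 0) =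
      ((1 / (l : ℝ) : ℝ) : ℂ) * xiu l u * Ksum (Y / l) u := by
  classical
  have hl0 : (0 : ℝ) < l := by exact_mod_cast hl
  unfold Ksum
  have hfl : ⌊Real.exp 4 * (Y / l)⌋₊ = ⌊Real.exp 4 * Y⌋₊ / l := by
    rw [← mul_div_assoc, Nat.floor_div_natCast]
  rw [← sum_filter, mul_sum, hfl]
  symm
  refine sum_bij (fun k _ => l * k) ?_ ?_ ?_ ?_
  · intro k hk
    rw [mem_Icc] at hk
    rw [mem_filter, mem_Icc]
    refine ⟨⟨?_, ?_⟩, dvd_mul_right _ _⟩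
    · exact Nat.mul_pos hl hk.1
    · exact (Nat.mul_le_mul_left l hk.2).trans (Nat.mul_div_le _ _)
  · intro k _ k' _ h
    exact Nat.eq_of_mul_eq_mul_left hl h
  · intro n hn
    rw [mem_filter, mem_Icc] at hn
    obtain ⟨⟨h1, h2⟩, k, rfl⟩ := hn
    refine ⟨k, ?_, rfl⟩
    rw [mem_Icc]
    refine ⟨?_, ?_⟩
    · by_contra h
      have : k = 0 := by omega
      rw [this, mul_zero] at h1
      omega
    · rw [Nat.le_div_iff_mul_le hl, mul_comm]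
      exact h2
  · intro k hk
    have hk1 := (mem_Icc.1 hk).1
    have hk0 : (0 : ℝ) < k := by exact_mod_cast hk1
    have e1 : ((l * k : ℕ) : ℝ) = (l : ℝ) * k := by push_cast; ring
    rw [e1, hm2_xiu_mul hl0 hk0]
    have e2 : (l : ℝ) * k / Y = k / (Y / l) := by
      field_simp
    rw [e2]
    have e3 : tri (Real.log ((k : ℝ) / (Y / l))) / ((l : ℝ) * k) =
        1 / (l : ℝ) * (tri (Real.log ((k : ℝ) / (Y / l))) / k) := by
      field_simp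
    rw [e3]
    push_cast
    ring

/-- the weights -/
noncomputable def hm2_w (ρ : ℕ → ℝ) (Y D : ℝ) (n : ℕ) : ℝ :=
  tri (Real.log (n / Y)) / n * (∑ d ∈ Icc 1 ⌊D⌋₊, if d ∣ n then ρ d else 0) ^ 2

theorem hm2_w_nonneg (ρ : ℕ → ℝ) (Y D : ℝ) (n : ℕ) : 0 ≤ hm2_w ρ Y D n := by
  unfold hm2_w
  have := hm2_tri_nonneg (Real.log (n / Y))
  positivity

theorem hm2_w_prime (ρ : ℕ → ℝ) (Y D : ℝ) (hρ1 : ρ 1 = 1) (hρ : ∀ d : ℕ, D < d → ρ d = 0)
    (hD : 1 ≤ D) (hDY : D ≤ Y) (p : ℕ) (hp : p.Prime) (h1 : Y < p) (h2 : (p : ℝ) ≤ Real.exp 1 * Y) :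
    3 / (4 * p) ≤ hm2_w ρ Y D p := by
  classical
  have hY : 0 < Y := by linarith
  have hp0 : (0 : ℝ) < p := by linarith
  unfold hm2_w
  have hs : (∑ d ∈ Icc 1 ⌊D⌋₊, if d ∣ p then ρ d else 0) = 1 := by
    rw [sum_eq_single 1]
    · rw [if_pos (one_dvd _), hρ1]
    · intro d hd hne
      split_ifs with h
      · rcases (Nat.dvd_prime hp).1 h with h | h
        · exact absurd h hne
        · rw [h]
          exact hρ p (by linarith)
      · rfl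
    · intro h
      exfalso
      apply h
      rw [mem_Icc]
      exact ⟨le_rfl, Nat.le_floor (by exact_mod_cast hD)⟩
  rw [hs, one_pow, mul_one]
  have hlog0 : 0 ≤ Real.log (p / Y) := Real.log_nonneg (by rw [le_div_iff₀ hY]; linarith)
  have hlog1 : Real.log (p / Y) ≤ 1 := by
    rw [Real.log_le_iff_le_exp (by positivity), div_le_iff₀ hY]
    exact h2
  have htri : 3 / 4 ≤ tri (Real.log (p / Y)) := by
    unfold tri
    rw [abs_of_nonneg hlog0]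
    refine le_trans ?_ (le_max_right _ _)
    linarith
  rw [div_le_div_iff₀ (by positivity) hp0]
  nlinarith

/-- expansion of the kernel -/
theorem hm2_kernel (ρ : ℕ → ℝ) (Y D u : ℝ) (hY : 0 < Y) :
    ∑ n ∈ Icc 1 ⌊Real.exp 4 * Y⌋₊, (hm2_w ρ Y D n : ℂ) * xiu n u =
      ∑ d ∈ Icc 1 ⌊D⌋₊, ∑ e ∈ Icc 1 ⌊D⌋₊, ((ρ d * ρ e / (Nat.lcm d e : ℝ) : ℝ) : ℂ) *
        (xiu (Nat.lcm d e : ℕ) u * Ksum (Y / (Nat.lcm d e : ℕ)) u) := by
  classical
  have h1 : ∀ n ∈ Icc 1 ⌊Real.exp 4 * Y⌋₊, (hm2_w ρ Y D n : ℂ) * xiu n u =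
      ∑ d ∈ Icc 1 ⌊D⌋₊, ∑ e ∈ Icc 1 ⌊D⌋₊, ((ρ d * ρ e : ℝ) : ℂ) *
        (if Nat.lcm d e ∣ n then ((tri (Real.log (n / Y)) / n : ℝ) : ℂ) * xiu n u else 0) := by
    intro n _
    unfold hm2_w
    rw [pow_two, sum_mul_sum, mul_sum, Complex.ofReal_sum, sum_mul]
    refine sum_congr rfl fun d _ => ?_
    rw [mul_sum, Complex.ofReal_sum, sum_mul]
    refine sum_congr rfl fun e _ => ?_
    by_cases hd : d ∣ n
    · by_cases he : e ∣ n
      · rw [if_pos hd, if_pos he, if_pos (Nat.lcm_dvd hd he)]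
        push_cast
        ring
      · rw [if_neg he, if_neg (fun h => he ((Nat.dvd_lcm_right d e).trans h))]
        simp
    · rw [if_neg hd, if_neg (fun h => hd ((Nat.dvd_lcm_left d e).trans h))]
      simp
  rw [sum_congr rfl h1, sum_comm]
  refine sum_congr rfl fun d hd => ?_
  rw [sum_comm]
  refine sum_congr rfl fun e he => ?_
  rw [← mul_sum]
  have hd1 := (mem_Icc.1 hd).1
  have he1 := (mem_Icc.1 he).1
  have hl : 1 ≤ Nat.lcm d e := Nat.lcm_pos (by omega) (by omega)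
  rw [hm2_mult Y u hY _ hl]
  push_cast
  ring

/-- bound for the kernel -/
theorem hm2_kernel_bound (A c₁ C₁ δ Y D u : ℝ) (ρ : ℕ → ℝ) (hA : 1 ≤ A) (_hc : 0 < c₁)
    (hC : 0 < C₁) (hδ0 : 0 < δ) (hδ1 : δ ≤ c₁ / 16) (hδ2 : δ ≤ 1 / 8) (hY : 2 ≤ Y)
    (hD : D = Y ^ δ) (hD2 : 2 ≤ D) (hρ : ∀ d, |ρ d| ≤ 1)
    (hq0 : 0 ≤ ∑ d ∈ Icc 1 ⌊D⌋₊, ∑ e ∈ Icc 1 ⌊D⌋₊, ρ d * ρ e / (Nat.lcm d e : ℝ))
    (hq : ∑ d ∈ Icc 1 ⌊D⌋₊, ∑ e ∈ Icc 1 ⌊D⌋₊, ρ d * ρ e / (Nat.lcm d e : ℝ) ≤ 1 / Real.log D)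
    (hSM : ∀ M u : ℝ, 1 ≤ M → |u| ≤ M ^ (2 * A + 2) →
      ‖Ksum M u - xiu M u * (Fh u : ℂ)‖ ≤ C₁ * M ^ (-c₁)) (hu : |u| ≤ 2 * Y ^ A) :
    ‖∑ n ∈ Icc 1 ⌊Real.exp 4 * Y⌋₊, (hm2_w ρ Y D n : ℂ) * xiu n u‖ ≤
      5 * (1 + u ^ 2)⁻¹ * (1 / Real.log D) + C₁ * Y ^ (-(c₁ / 2)) := by
  classical
  have hY0 : 0 < Y := by linarith
  have hY1 : 1 ≤ Y := by linarith
  have hD0 : 0 < D := by linarith
  rw [hm2_kernel ρ Y D u hY0]
  -- split
  have hsplit : ∑ d ∈ Icc 1 ⌊D⌋₊, ∑ e ∈ Icc 1 ⌊D⌋₊, ((ρ d * ρ e / (Nat.lcm d e : ℝ) : ℝ) : ℂ) *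
        (xiu (Nat.lcm d e : ℕ) u * Ksum (Y / (Nat.lcm d e : ℕ)) u) =
      xiu Y u * (Fh u : ℂ) *
        ((∑ d ∈ Icc 1 ⌊D⌋₊, ∑ e ∈ Icc 1 ⌊D⌋₊, ρ d * ρ e / (Nat.lcm d e : ℝ) : ℝ) : ℂ) +
      ∑ d ∈ Icc 1 ⌊D⌋₊, ∑ e ∈ Icc 1 ⌊D⌋₊, ((ρ d * ρ e / (Nat.lcm d e : ℝ) : ℝ) : ℂ) *
        (xiu (Nat.lcm d e : ℕ) u * (Ksum (Y / (Nat.lcm d e : ℕ)) u -
          xiu (Y / (Nat.lcm d e : ℕ)) u * (Fh u : ℂ))) := by
    rw [Complex.ofReal_sum, mul_sum, ← sum_add_distrib]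
    refine sum_congr rfl fun d hd => ?_
    rw [Complex.ofReal_sum, mul_sum, ← sum_add_distrib]
    refine sum_congr rfl fun e he => ?_
    have hd1 := (mem_Icc.1 hd).1
    have he1 := (mem_Icc.1 he).1
    have hl : 1 ≤ Nat.lcm d e := Nat.lcm_pos (by omega) (by omega)
    have hl0 : (0 : ℝ) < (Nat.lcm d e : ℕ) := by exact_mod_cast hl
    have h1 : xiu Y u = xiu (Nat.lcm d e : ℕ) u * xiu (Y / (Nat.lcm d e : ℕ)) u := by
      rw [← hm2_xiu_mul hl0 (by positivity)]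
      congr 1
      field_simp
    rw [h1]
    ring
  rw [hsplit]
  refine (norm_add_le _ _).trans (add_le_add ?_ ?_)
  · rw [norm_mul, norm_mul, hm2_xiu_norm, one_mul, Complex.norm_real, Complex.norm_real,
      Real.norm_eq_abs, Real.norm_of_nonneg hq0]
    exact mul_le_mul (hm2_Fh u) hq hq0 (by positivity)
  · have hterm : ∀ d ∈ Icc 1 ⌊D⌋₊, ∀ e ∈ Icc 1 ⌊D⌋₊,
        ‖((ρ d * ρ e / (Nat.lcm d e : ℝ) : ℝ) : ℂ) *
        (xiu (Nat.lcm d e : ℕ) u * (Ksum (Y / (Nat.lcm d e : ℕ)) u -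
          xiu (Y / (Nat.lcm d e : ℕ)) u * (Fh u : ℂ)))‖ ≤ C₁ * (Y ^ (3 / 4 : ℝ)) ^ (-c₁) := by
      intro d hd e he
      obtain ⟨hd1, hd2⟩ := mem_Icc.1 hd
      obtain ⟨he1, he2⟩ := mem_Icc.1 he
      have hl : 1 ≤ Nat.lcm d e := Nat.lcm_pos (by omega) (by omega)
      have hl1 : (1 : ℝ) ≤ (Nat.lcm d e : ℕ) := by exact_mod_cast hl
      have hl0 : (0 : ℝ) < (Nat.lcm d e : ℕ) := by linarith
      have hdD : (d : ℝ) ≤ D := (Nat.le_floor_iff hD0.le).1 hd2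
      have heD : (e : ℝ) ≤ D := (Nat.le_floor_iff hD0.le).1 he2
      have hlD : ((Nat.lcm d e : ℕ) : ℝ) ≤ Y ^ (1 / 4 : ℝ) := by
        have h1 : ((Nat.lcm d e : ℕ) : ℝ) ≤ d * e := by
          exact_mod_cast Nat.le_of_dvd (Nat.mul_pos hd1 he1) (Nat.lcm_dvd_mul d e)
        have h2 : (d : ℝ) * e ≤ D * D := mul_le_mul hdD heD (by positivity) hD0.le
        refine (h1.trans h2).trans ?_
        rw [hD, ← Real.rpow_add hY0]
        exact Real.rpow_le_rpow_of_exponent_le hY1 (by linarith)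
      have hYl : Y ^ (3 / 4 : ℝ) ≤ Y / (Nat.lcm d e : ℕ) := by
        rw [le_div_iff₀ hl0]
        calc Y ^ (3 / 4 : ℝ) * (Nat.lcm d e : ℕ) ≤ Y ^ (3 / 4 : ℝ) * Y ^ (1 / 4 : ℝ) :=
              mul_le_mul_of_nonneg_left hlD (by positivity)
          _ = Y := by
              rw [← Real.rpow_add hY0]
              norm_num
      have hY34 : 1 ≤ Y ^ (3 / 4 : ℝ) := Real.one_le_rpow hY1 (by norm_num)
      have hcond : |u| ≤ (Y / (Nat.lcm d e : ℕ)) ^ (2 * A + 2) := by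
        refine hu.trans ?_
        have h1 : (Y ^ (3 / 4 : ℝ)) ^ (2 * A + 2) ≤ (Y / (Nat.lcm d e : ℕ)) ^ (2 * A + 2) :=
          Real.rpow_le_rpow (by positivity) hYl (by linarith)
        refine le_trans ?_ h1
        rw [← Real.rpow_mul hY0.le]
        calc 2 * Y ^ A ≤ Y ^ (1 : ℝ) * Y ^ A := by
              rw [Real.rpow_one]
              exact mul_le_mul_of_nonneg_right hY (by positivity)
          _ = Y ^ (1 + A) := (Real.rpow_add hY0 _ _).symm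
          _ ≤ Y ^ (3 / 4 * (2 * A + 2)) :=
              Real.rpow_le_rpow_of_exponent_le hY1 (by linarith)
      have h2 := hSM (Y / (Nat.lcm d e : ℕ)) u (hY34.trans hYl) hcond
      rw [norm_mul, norm_mul, hm2_xiu_norm, one_mul, Complex.norm_real, Real.norm_eq_abs]
      have h3 : |ρ d * ρ e / (Nat.lcm d e : ℝ)| ≤ 1 := by
        rw [abs_div, abs_mul, abs_of_pos hl0, div_le_one hl0]
        exact (mul_le_one₀ (hρ d) (abs_nonneg _) (hρ e)).trans hl1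
      have h4 : (Y / (Nat.lcm d e : ℕ)) ^ (-c₁) ≤ (Y ^ (3 / 4 : ℝ)) ^ (-c₁) :=
        Real.rpow_le_rpow_of_nonpos (by positivity) hYl (by linarith)
      calc |ρ d * ρ e / (Nat.lcm d e : ℝ)| * ‖Ksum (Y / (Nat.lcm d e : ℕ)) u -
          xiu (Y / (Nat.lcm d e : ℕ)) u * (Fh u : ℂ)‖ ≤ 1 * (C₁ * (Y ^ (3 / 4 : ℝ)) ^ (-c₁)) := by
            refine mul_le_mul h3 (h2.trans ?_) (norm_nonneg _) zero_le_one
            exact mul_le_mul_of_nonneg_left h4 hC.le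
        _ = C₁ * (Y ^ (3 / 4 : ℝ)) ^ (-c₁) := one_mul _
    refine (norm_sum_le _ _).trans ?_
    refine (sum_le_sum fun d hd => (norm_sum_le _ _).trans (sum_le_sum fun e he =>
      hterm d hd e he)).trans ?_
    rw [sum_const, sum_const, nsmul_eq_mul, nsmul_eq_mul, Nat.card_Icc, Nat.add_sub_cancel]
    have hfl : ((⌊D⌋₊ : ℕ) : ℝ) ≤ D := Nat.floor_le hD0.le
    have hfl0 : (0 : ℝ) ≤ ((⌊D⌋₊ : ℕ) : ℝ) := Nat.cast_nonneg _
    have h1 : ((⌊D⌋₊ : ℕ) : ℝ) * (((⌊D⌋₊ : ℕ) : ℝ) * (C₁ * (Y ^ (3 / 4 : ℝ)) ^ (-c₁))) ≤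
        D * (D * (C₁ * (Y ^ (3 / 4 : ℝ)) ^ (-c₁))) := by
      refine mul_le_mul hfl (mul_le_mul_of_nonneg_right hfl (by positivity)) (by positivity) hD0.le
    refine h1.trans ?_
    have h2 : D * (D * (C₁ * (Y ^ (3 / 4 : ℝ)) ^ (-c₁))) =
        C₁ * (Y ^ (δ + δ + 3 / 4 * (-c₁))) := by
      rw [← Real.rpow_mul hY0.le, Real.rpow_add hY0, Real.rpow_add hY0, hD]
      ring
    rw [h2]
    refine mul_le_mul_of_nonneg_left ?_ hC.le
    exact Real.rpow_le_rpow_of_exponent_le hY1 (by linarith)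

/-- trivial bound for `DP` -/
theorem hm2_trivial (Y : ℝ) (hY : 2 ≤ Y) (P : Finset ℕ)
    (hP : ∀ p ∈ P, p.Prime ∧ Y < p ∧ (p : ℝ) ≤ Real.exp 1 * Y) (f : ℕ → ℂ)
    (hf : ∀ n, ‖f n‖ ≤ 1) (t : ℝ) : ‖DP P f t‖ ≤ 3 := by
  classical
  have hY0 : 0 < Y := by linarith
  unfold DP
  refine (norm_sum_le _ _).trans ?_
  have h1 : ∀ p ∈ P, ‖f p / p * nit p t‖ ≤ 1 / Y := by
    intro p hp
    obtain ⟨-, h2, -⟩ := hP p hp
    have hn : ‖nit p t‖ = 1 := by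
      have := hm2_nit p t 0
      rw [sub_zero] at this
      rw [this, hm2_xiu_norm]
    rw [norm_mul, norm_div, hn, mul_one, Complex.norm_natCast]
    exact div_le_div₀ zero_le_one (hf p) hY0 h2.le
  refine (sum_le_sum h1).trans ?_
  rw [sum_const, nsmul_eq_mul]
  have hsub : P ⊆ Ioc ⌊Y⌋₊ ⌊Real.exp 1 * Y⌋₊ := by
    intro p hp
    obtain ⟨-, h2, h3⟩ := hP p hp
    rw [mem_Ioc]
    exact ⟨(Nat.floor_lt hY0.le).2 h2, Nat.le_floor h3⟩
  have hcard := card_le_card hsub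
  rw [Nat.card_Ioc] at hcard
  have he : 1 ≤ Real.exp 1 := Real.one_le_exp zero_le_one
  have hfl : ⌊Y⌋₊ ≤ ⌊Real.exp 1 * Y⌋₊ := Nat.floor_mono (by nlinarith)
  have hcard' : (P.card : ℝ) ≤ (⌊Real.exp 1 * Y⌋₊ : ℝ) - ⌊Y⌋₊ := by
    rw [← Nat.cast_sub hfl]; exact_mod_cast hcard
  have h5 := Nat.floor_le (show 0 ≤ Real.exp 1 * Y by positivity)
  have h6 := Nat.lt_floor_add_one Y
  have h7 := Real.exp_one_lt_d9
  rw [mul_one_div, div_le_iff₀ hY0]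
  nlinarith

theorem hm2_DP_cont (P : Finset ℕ) (f : ℕ → ℂ) : Continuous (DP P f) := by
  unfold DP nit
  fun_prop

theorem st_HM2 (hSM : ST_SM) (hDUAL : ST_DUAL) (hSEL : ST_SEL) : ST_HM2 := by
  classical
  intro A hA
  obtain ⟨c₁, hc₁, C₁, hC₁, hSM⟩ := hSM (2 * A + 2) (by linarith)
  set δ : ℝ := min (c₁ / 16) (1 / 8) with hδ
  have hδ0 : 0 < δ := lt_min (by positivity) (by norm_num)
  have hδ1 : δ ≤ c₁ / 16 := min_le_left _ _
  have hδ2 : δ ≤ 1 / 8 := min_le_right _ _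
  set Y₀ : ℝ := 2 ^ (1 / δ) with hY₀
  have hY₀1 : 1 ≤ Y₀ := Real.one_le_rpow (by norm_num) (by positivity)
  have hlog2 : 0 < Real.log 2 := Real.log_pos (by norm_num)
  set C₂ : ℝ := 5 / δ + 2 * C₁ / c₁ with hC₂
  have hC₂0 : 0 < C₂ := by positivity
  have hπ := Real.pi_pos
  set C : ℝ := 16 / 9 * C₂ * (5 * Real.pi / δ) + 16 / 9 * C₂ * C₁ / Real.log 2 +
    9 * Y₀ ^ (c₁ / 2) with hCdef
  have hCa : 0 < 16 / 9 * C₂ * (5 * Real.pi / δ) := by positivity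
  have hCb : 0 < 16 / 9 * C₂ * C₁ / Real.log 2 := by positivity
  have hCc : 0 < 9 * Y₀ ^ (c₁ / 2) := by positivity
  have hC0 : 0 < C := by rw [hCdef]; linarith
  refine ⟨c₁ / 2, by positivity, C, hC0, ?_⟩
  intro Y P f U hY hP hf hU hUsub
  have hY0 : 0 < Y := by linarith
  have hY1 : 1 ≤ Y := by linarith
  have hlogY : Real.log 2 ≤ Real.log Y := Real.log_le_log (by norm_num) hY
  have hlogY0 : 0 < Real.log Y := by linarith
  have hUfin : volume U < ⊤ := by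
    refine lt_of_le_of_lt (measure_mono hUsub) ?_
    rw [Real.volume_Icc]
    exact ENNReal.ofReal_lt_top
  have hUnn : 0 ≤ (volume U).toReal := ENNReal.toReal_nonneg
  rcases lt_or_ge Y Y₀ with hsmall | hlarge
  · -- small `Y`
    have h1 : ∫ t in U, ‖DP P f t‖ ^ 2 ≤ ∫ _ in U, (9 : ℝ) := by
      refine integral_mono_of_nonneg (Filter.Eventually.of_forall fun t => sq_nonneg _)
        (integrableOn_const hUfin.ne) (Filter.Eventually.of_forall fun t => ?_)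
      have := hm2_trivial Y hY P hP f hf t
      have h0 := norm_nonneg (DP P f t)
      change ‖DP P f t‖ ^ 2 ≤ 9
      nlinarith
    rw [setIntegral_const, smul_eq_mul, Measure.real] at h1
    have h2 : 1 ≤ Y₀ ^ (c₁ / 2) * Y ^ (-(c₁ / 2)) := by
      rw [Real.rpow_neg hY0.le, ← div_eq_mul_inv, one_le_div (by positivity)]
      exact Real.rpow_le_rpow hY0.le hsmall.le (by positivity)
    have h3 : 9 * (volume U).toReal ≤ 9 * Y₀ ^ (c₁ / 2) * (volume U).toReal * Y ^ (-(c₁ / 2)) := by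
      have := mul_le_mul_of_nonneg_left h2 (show 0 ≤ 9 * (volume U).toReal by positivity)
      calc 9 * (volume U).toReal = 9 * (volume U).toReal * 1 := (mul_one _).symm
        _ ≤ 9 * (volume U).toReal * (Y₀ ^ (c₁ / 2) * Y ^ (-(c₁ / 2))) := this
        _ = 9 * Y₀ ^ (c₁ / 2) * (volume U).toReal * Y ^ (-(c₁ / 2)) := by ring
    have h4 : 9 * Y₀ ^ (c₁ / 2) * (volume U).toReal * Y ^ (-(c₁ / 2)) ≤
        C * (volume U).toReal * Y ^ (-(c₁ / 2)) := by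
      refine mul_le_mul_of_nonneg_right (mul_le_mul_of_nonneg_right ?_ hUnn) (by positivity)
      rw [hCdef]; linarith
    have h5 : 0 ≤ C / Real.log Y ^ 2 := by positivity
    linarith
  -- large `Y`
  set D : ℝ := Y ^ δ with hD
  have hD2 : 2 ≤ D := by
    have : (2 : ℝ) = Y₀ ^ δ := by
      rw [hY₀, ← Real.rpow_mul (by norm_num), one_div_mul_cancel hδ0.ne', Real.rpow_one]
    rw [this]
    exact Real.rpow_le_rpow (by positivity) hlarge hδ0.le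
  have hDY : D ≤ Y := by
    calc D ≤ Y ^ (1 : ℝ) := Real.rpow_le_rpow_of_exponent_le hY1 (by linarith)
      _ = Y := Real.rpow_one _
  have hlogD : Real.log D = δ * Real.log Y := by rw [hD, Real.log_rpow hY0]
  have hlogD0 : 0 < Real.log D := by rw [hlogD]; positivity
  obtain ⟨ρ, hρ1, -, hρ, hρD, hq0, hq⟩ := hSEL D hD2
  have hK : ∀ u, |u| ≤ 2 * Y ^ A →
      ‖∑ n ∈ Icc 1 ⌊Real.exp 4 * Y⌋₊, (hm2_w ρ Y D n : ℂ) * xiu n u‖ ≤
      5 * (1 + u ^ 2)⁻¹ * (1 / Real.log D) + C₁ * Y ^ (-(c₁ / 2)) := fun u hu =>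
    hm2_kernel_bound A c₁ C₁ δ Y D u ρ hA hc₁ hC₁ hδ0 hδ1 hδ2 hY hD hD2 hρ hq0 hq hSM hu
  set s : Finset ℕ := Icc 1 ⌊Real.exp 4 * Y⌋₊ with hs
  have hPs : P ⊆ s := by
    intro p hp
    obtain ⟨hpp, -, h3⟩ := hP p hp
    rw [hs, mem_Icc]
    refine ⟨hpp.pos, Nat.le_floor (h3.trans ?_)⟩
    exact mul_le_mul_of_nonneg_right (Real.exp_le_exp.2 (by norm_num)) hY0.le
  set a : ℕ → ℂ := fun n => if n ∈ P then f n / n else 0 with ha
  set B : ℝ := 5 * Real.pi / Real.log D + C₁ * Y ^ (-(c₁ / 2)) * (volume U).toReal with hB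
  have hB0 : 0 ≤ B := by positivity
  have hDP : ∀ t, ∑ n ∈ s, a n * nit n t = DP P f t := by
    intro t
    unfold DP
    rw [← sum_subset hPs]
    · refine sum_congr rfl fun n hn => ?_
      rw [ha]
      simp only [if_pos hn]
    · intro n _ hn
      rw [ha]
      simp only [if_neg hn, zero_mul]
  have hw0 : ∀ p ∈ P, 3 / (4 * (p : ℝ)) ≤ hm2_w ρ Y D p := fun p hp =>
    hm2_w_prime ρ Y D hρ1 hρD (by linarith) hDY p (hP p hp).1 (hP p hp).2.1 (hP p hp).2.2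
  have hppos : ∀ p ∈ P, (0 : ℝ) < p := fun p hp => by
    exact_mod_cast (hP p hp).1.pos
  have hdual := hDUAL s (hm2_w ρ Y D) a U (Y ^ A) B hB0 (fun n _ => hm2_w_nonneg ρ Y D n) ?_ hU
    hUsub ?_
  rotate_left
  · intro n _ hn0
    rw [ha]
    by_cases h : n ∈ P
    · exfalso
      have h1 := hw0 n h
      have h2 := hppos n h
      rw [hn0] at h1
      have : 0 < 3 / (4 * (n : ℝ)) := by positivity
      linarith
    · simp only [if_neg h]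
  · intro t ht
    have hmem : ∀ r ∈ U, ‖∑ n ∈ s, (hm2_w ρ Y D n : ℂ) * nit n (t - r)‖ ≤
        5 * (1 + (r - t) ^ 2)⁻¹ * (1 / Real.log D) + C₁ * Y ^ (-(c₁ / 2)) := by
      intro r hr
      have h1 : ∑ n ∈ s, (hm2_w ρ Y D n : ℂ) * nit n (t - r) =
          ∑ n ∈ s, (hm2_w ρ Y D n : ℂ) * xiu n (r - t) :=
        sum_congr rfl fun n _ => by rw [hm2_nit]
      rw [h1]
      apply hK
      have h2 := hUsub ht
      have h3 := hUsub hr
      rw [abs_le]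
      constructor <;> linarith [h2.1, h2.2, h3.1, h3.2]
    have hint : Integrable fun r : ℝ => (1 + (r - t) ^ 2)⁻¹ :=
      integrable_inv_one_add_sq.comp_sub_right t
    have hint2 : IntegrableOn (fun r : ℝ =>
        5 * (1 + (r - t) ^ 2)⁻¹ * (1 / Real.log D) + C₁ * Y ^ (-(c₁ / 2))) U :=
      (((hint.const_mul 5).mul_const _).integrableOn).add (integrableOn_const hUfin.ne)
    have h1 : ∫ r in U, ‖∑ n ∈ s, (hm2_w ρ Y D n : ℂ) * nit n (t - r)‖ ≤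
        ∫ r in U, (5 * (1 + (r - t) ^ 2)⁻¹ * (1 / Real.log D) + C₁ * Y ^ (-(c₁ / 2))) := by
      refine integral_mono_of_nonneg (Filter.Eventually.of_forall fun t => norm_nonneg _) hint2 ?_
      exact (ae_restrict_iff' hU).2 (Filter.Eventually.of_forall hmem)
    refine h1.trans ?_
    rw [integral_add ((((hint.const_mul 5).mul_const _)).integrableOn)
      (integrableOn_const hUfin.ne), setIntegral_const, smul_eq_mul, Measure.real]
    have h2 : ∫ r in U, 5 * (1 + (r - t) ^ 2)⁻¹ * (1 / Real.log D) ≤ 5 * Real.pi / Real.log D := by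
      have h3 : ∫ r in U, 5 * (1 + (r - t) ^ 2)⁻¹ * (1 / Real.log D) ≤
          ∫ r, 5 * (1 + (r - t) ^ 2)⁻¹ * (1 / Real.log D) := by
        refine setIntegral_le_integral ((hint.const_mul 5).mul_const _)
          (Filter.Eventually.of_forall fun r => ?_)
        change 0 ≤ 5 * (1 + (r - t) ^ 2)⁻¹ * (1 / Real.log D)
        positivity
      refine h3.trans (le_of_eq ?_)
      rw [integral_mul_const, integral_const_mul]
      have h4 : ∫ r : ℝ, (1 + (r - t) ^ 2)⁻¹ = Real.pi := by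
        rw [integral_sub_right_eq_self (fun r : ℝ => (1 + r ^ 2)⁻¹) t]
        exact integral_univ_inv_one_add_sq
      rw [h4]
      ring
    rw [hB]
    linarith [mul_comm ((volume U).toReal) (C₁ * Y ^ (-(c₁ / 2)))]
  -- the sum of the squares of the coefficients
  have hsum : ∑ n ∈ s, ‖a n‖ ^ 2 / hm2_w ρ Y D n ≤ 16 / 9 * (C₂ / Real.log Y) := by
    have h1 : ∑ n ∈ s, ‖a n‖ ^ 2 / hm2_w ρ Y D n = ∑ p ∈ P, ‖a p‖ ^ 2 / hm2_w ρ Y D p := by
      symm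
      refine sum_subset hPs ?_
      intro n _ hn
      rw [ha]
      simp only [if_neg hn, norm_zero]
      simp
    rw [h1]
    have h2 : ∀ p ∈ P, ‖a p‖ ^ 2 / hm2_w ρ Y D p ≤ 16 / 9 * hm2_w ρ Y D p := by
      intro p hp
      have hp0 := hppos p hp
      have hw := hw0 p hp
      have hwpos : 0 < hm2_w ρ Y D p := lt_of_lt_of_le (by positivity) hw
      rw [div_le_iff₀ hwpos]
      have h3 : ‖a p‖ ≤ 1 / p := by
        rw [ha]
        simp only [if_pos hp]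
        rw [norm_div, Complex.norm_natCast]
        exact div_le_div_of_nonneg_right (hf p) hp0.le
      have h4 : ‖a p‖ ^ 2 ≤ (1 / p) ^ 2 := pow_le_pow_left₀ (norm_nonneg _) h3 2
      have h5 : (3 / (4 * (p : ℝ))) ^ 2 ≤ hm2_w ρ Y D p ^ 2 :=
        pow_le_pow_left₀ (by positivity) hw 2
      calc ‖a p‖ ^ 2 ≤ (1 / (p : ℝ)) ^ 2 := h4
        _ = 16 / 9 * (3 / (4 * (p : ℝ))) ^ 2 := by field_simp; norm_num
        _ ≤ 16 / 9 * hm2_w ρ Y D p ^ 2 := mul_le_mul_of_nonneg_left h5 (by norm_num)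
        _ = 16 / 9 * hm2_w ρ Y D p * hm2_w ρ Y D p := by ring
    refine (sum_le_sum h2).trans ?_
    rw [← mul_sum]
    refine mul_le_mul_of_nonneg_left ?_ (by norm_num)
    have h3 : ∑ p ∈ P, hm2_w ρ Y D p ≤ ∑ n ∈ s, hm2_w ρ Y D n :=
      sum_le_sum_of_subset_of_nonneg hPs fun n _ _ => hm2_w_nonneg ρ Y D n
    refine h3.trans ?_
    have h4 := hK 0 (by simp; positivity)
    have h5 : ∑ n ∈ s, (hm2_w ρ Y D n : ℂ) * xiu n 0 = ((∑ n ∈ s, hm2_w ρ Y D n : ℝ) : ℂ) := by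
      rw [Complex.ofReal_sum]
      refine sum_congr rfl fun n _ => ?_
      unfold xiu
      simp
    rw [h5, Complex.norm_real,
      Real.norm_of_nonneg (sum_nonneg fun n _ => hm2_w_nonneg ρ Y D n)] at h4
    refine h4.trans ?_
    have h6 : Real.log Y ≤ Y ^ (c₁ / 2) / (c₁ / 2) := Real.log_le_rpow_div hY0.le (by positivity)
    have h7 : Y ^ (-(c₁ / 2)) ≤ 2 / c₁ / Real.log Y := by
      rw [Real.rpow_neg hY0.le, le_div_iff₀ hlogY0, inv_mul_le_iff₀ (by positivity)]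
      calc Real.log Y ≤ Y ^ (c₁ / 2) / (c₁ / 2) := h6
        _ = Y ^ (c₁ / 2) * (2 / c₁) := by field_simp
    have h8 := mul_le_mul_of_nonneg_left h7 hC₁.le
    have h9 : 5 * (1 + (0 : ℝ) ^ 2)⁻¹ * (1 / Real.log D) = 5 / δ / Real.log Y := by
      rw [hlogD]
      field_simp
      norm_num
    rw [h9, hC₂, add_div]
    have h10 : C₁ * (2 / c₁ / Real.log Y) = 2 * C₁ / c₁ / Real.log Y := by ring
    linarith
  simp_rw [hDP] at hdual
  refine hdual.trans ?_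
  have h1 : (∑ n ∈ s, ‖a n‖ ^ 2 / hm2_w ρ Y D n) * B ≤ 16 / 9 * (C₂ / Real.log Y) * B :=
    mul_le_mul_of_nonneg_right hsum hB0
  refine h1.trans ?_
  have e1 : 16 / 9 * (C₂ / Real.log Y) * B =
      16 / 9 * C₂ * (5 * Real.pi / δ) / Real.log Y ^ 2 +
      16 / 9 * C₂ * C₁ / Real.log Y * (volume U).toReal * Y ^ (-(c₁ / 2)) := by
    rw [hB, hlogD]
    field_simp
  rw [e1]
  refine add_le_add ?_ ?_
  · refine div_le_div_of_nonneg_right ?_ (by positivity)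
    rw [hCdef]; linarith
  · refine mul_le_mul_of_nonneg_right (mul_le_mul_of_nonneg_right ?_ hUnn) (by positivity)
    have : 16 / 9 * C₂ * C₁ / Real.log Y ≤ 16 / 9 * C₂ * C₁ / Real.log 2 :=
      div_le_div_of_nonneg_left (by positivity) hlog2 hlogY
    rw [hCdef]; linarith

end Pool.Agent.Helper40.MR
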