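import Pool.Agent.Helper40.MR.Defs

/-!
# VEC: from exponentials to arbitrary test vectors
-/

set_option autoImplicit false

open Finset MeasureTheory
open scoped BigOperators Nat

namespace Pool.Agent.Helper40.MR

theorem vec_ee_add (x y : ℝ) : ee (x + y) = ee x * ee y := by
  unfold ee
  rw [← Complex.exp_add]
  congr 1
  push_cast
  ring

theorem vec_ee_norm (x : ℝ) : ‖ee x‖ = 1 := by
  unfold ee
  rw [Complex.norm_exp_ofReal_mul_I]

theorem vec_ee_conj (x : ℝ) : (starRingEnd ℂ) (ee x) = ee (-x) := by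
  unfold ee
  rw [← Complex.exp_conj]
  congr 1
  rw [map_mul, Complex.conj_ofReal, Complex.conj_I]
  push_cast
  ring

theorem vec_ee_cont : Continuous ee := by
  unfold ee
  fun_prop

/-- orthogonality -/
theorem vec_orth (h : ℤ) : ∫ θ in (0 : ℝ)..1, ee (h * θ) = if h = 0 then 1 else 0 := by
  split_ifs with h0
  · subst h0
    simp [ee]
  · have hc : (2 * Real.pi * h * Complex.I : ℂ) ≠ 0 := by
      have : (h : ℂ) ≠ 0 := by exact_mod_cast h0
      have hpi : (Real.pi : ℂ) ≠ 0 := by exact_mod_cast Real.pi_ne_zero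
      simp [this, hpi]
    have e1 : ∀ θ : ℝ, ee (h * θ) = Complex.exp ((2 * Real.pi * h * Complex.I : ℂ) * θ) := by
      intro θ
      unfold ee
      congr 1
      push_cast
      ring
    simp_rw [e1]
    rw [integral_exp_mul_complex hc]
    have e2 : Complex.exp ((2 * Real.pi * h * Complex.I : ℂ) * ((1 : ℝ) : ℂ)) = 1 := by
      rw [← Complex.exp_int_mul_two_pi_mul_I h]
      congr 1
      push_cast
      ring
    rw [e2]
    simp

/-- the correlations -/
noncomputable def vec_G (N : ℕ) (a : ℕ → ℂ) (j j' : ℕ) : ℂ :=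
  ∑ m ∈ range (N + 1), a (m + j) * (starRingEnd ℂ) (a (m + j'))

/-- expansion of the mean square over the windows -/
theorem vec_expand (N L : ℕ) (a c : ℕ → ℂ) :
    (((∑ m ∈ range (N + 1), ‖∑ j ∈ range L, a (m + j) * c j‖ ^ 2 : ℝ)) : ℂ) =
      ∑ j ∈ range L, ∑ j' ∈ range L, vec_G N a j j' * (c j * (starRingEnd ℂ) (c j')) := by
  have h1 : ∀ m, (((‖∑ j ∈ range L, a (m + j) * c j‖ ^ 2 : ℝ)) : ℂ) =
      ∑ j ∈ range L, ∑ j' ∈ range L,
        (a (m + j) * (starRingEnd ℂ) (a (m + j'))) * (c j * (starRingEnd ℂ) (c j')) := by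
    intro m
    rw [Complex.ofReal_pow, ← Complex.mul_conj', map_sum, sum_mul_sum]
    refine sum_congr rfl fun j _ => sum_congr rfl fun j' _ => ?_
    rw [map_mul]
    ring
  rw [Complex.ofReal_sum, sum_congr rfl fun m _ => h1 m, sum_comm]
  refine sum_congr rfl fun j _ => ?_
  rw [sum_comm]
  refine sum_congr rfl fun j' _ => ?_
  rw [vec_G, sum_mul]

/-- the exponential sum -/
noncomputable def vec_S (N : ℕ) (a : ℕ → ℂ) (θ : ℝ) : ℂ := ∑ n ∈ range (N + 1), a n * ee (n * θ)

theorem vec_S_cont (N : ℕ) (a : ℕ → ℂ) : Continuous (vec_S N a) := by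
  unfold vec_S
  refine continuous_finsetSum _ fun n _ => ?_
  exact continuous_const.mul (vec_ee_cont.comp (by fun_prop))

theorem vec_corr (N L : ℕ) (a : ℕ → ℂ) (hN : ∀ n, N < n → a n = 0) (hL : ∀ n, n ≤ L → a n = 0)
    (j j' : ℕ) (hj : j < L) (_hj' : j' < L) :
    ∫ θ in (0 : ℝ)..1, (((‖vec_S N a θ‖ ^ 2 : ℝ)) : ℂ) * ee (-((j : ℝ) - j') * θ) =
      vec_G N a j j' := by
  classical
  have h1 : ∀ θ : ℝ, (((‖vec_S N a θ‖ ^ 2 : ℝ)) : ℂ) * ee (-((j : ℝ) - j') * θ) =
      ∑ n ∈ range (N + 1), ∑ n' ∈ range (N + 1),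
        (a n * (starRingEnd ℂ) (a n')) * ee (((n : ℤ) - n' - j + j' : ℤ) * θ) := by
    intro θ
    rw [Complex.ofReal_pow, ← Complex.mul_conj', vec_S, map_sum, sum_mul_sum, sum_mul]
    refine sum_congr rfl fun n _ => ?_
    rw [sum_mul]
    refine sum_congr rfl fun n' _ => ?_
    rw [map_mul, vec_ee_conj]
    have : ee (((n : ℤ) - n' - j + j' : ℤ) * θ) =
        ee (n * θ) * ee (-(n' * θ)) * ee (-((j : ℝ) - j') * θ) := by
      rw [← vec_ee_add, ← vec_ee_add]
      congr 1
      push_cast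
      ring
    rw [this]
    ring
  simp_rw [h1]
  have hcont : ∀ n n' : ℕ, Continuous fun θ : ℝ =>
      (a n * (starRingEnd ℂ) (a n')) * ee (((n : ℤ) - n' - j + j' : ℤ) * θ) := by
    intro n n'
    exact continuous_const.mul (vec_ee_cont.comp (by fun_prop))
  rw [intervalIntegral.integral_finsetSum]
  swap
  · intro n _
    exact (continuous_finsetSum _ fun n' _ => hcont n n').intervalIntegrable _ _
  have h2 : ∀ n ∈ range (N + 1), ∫ θ in (0 : ℝ)..1, ∑ n' ∈ range (N + 1),
        (a n * (starRingEnd ℂ) (a n')) * ee (((n : ℤ) - n' - j + j' : ℤ) * θ) =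
      ∑ n' ∈ range (N + 1), if n + j' = n' + j then a n * (starRingEnd ℂ) (a n') else 0 := by
    intro n _
    rw [intervalIntegral.integral_finsetSum fun n' _ => (hcont n n').intervalIntegrable _ _]
    refine sum_congr rfl fun n' _ => ?_
    rw [intervalIntegral.integral_const_mul, vec_orth]
    have : ((n : ℤ) - n' - j + j' = 0) ↔ n + j' = n' + j := by
      constructor
      · intro h; omega
      · intro h; omega
    by_cases h : n + j' = n' + j
    · rw [if_pos h, if_pos (this.2 h), mul_one]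
    · rw [if_neg h, if_neg (fun h' => h (this.1 h')), mul_zero]
  rw [sum_congr rfl h2, ← sum_product', ← sum_filter, vec_G]
  refine sum_bij_ne_zero (fun p _ _ => p.1 - j) ?_ ?_ ?_ ?_
  · intro p hp _
    have := (mem_filter.1 hp).1
    rw [mem_product, mem_range, mem_range] at this
    rw [mem_range]
    omega
  · intro p hp hp0 p' hp' hp0' h
    have h3 := (mem_filter.1 hp).2
    have h4 := (mem_filter.1 hp').2
    have h5 : L < p.1 := by
      by_contra hcon
      exact hp0 (by rw [hL p.1 (by omega), zero_mul])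
    have h6 : L < p'.1 := by
      by_contra hcon
      exact hp0' (by rw [hL p'.1 (by omega), zero_mul])
    refine Prod.ext ?_ ?_
    · omega
    · omega
  · intro m hm hm0
    have h7 : m + j ≤ N := by
      by_contra hcon
      exact hm0 (by rw [hN (m + j) (by omega), zero_mul])
    have h8 : m + j' ≤ N := by
      by_contra hcon
      exact hm0 (by rw [hN (m + j') (by omega), map_zero, mul_zero])
    refine ⟨(m + j, m + j'), ?_, hm0, by simp⟩
    rw [mem_filter, mem_product, mem_range, mem_range]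
    refine ⟨⟨?_, ?_⟩, ?_⟩
    · change m + j < N + 1; omega
    · change m + j' < N + 1; omega
    · change m + j + j' = m + j' + j; omega
  · intro p hp hp0
    have h3 := (mem_filter.1 hp).2
    have h5 : L < p.1 := by
      by_contra hcon
      exact hp0 (by rw [hL p.1 (by omega), zero_mul])
    have e1 : p.1 - j + j = p.1 := by omega
    have e2 : p.1 - j + j' = p.2 := by omega
    rw [e1, e2]

theorem st_VEC : ST_VEC := by
  refine ⟨1, one_pos, ?_⟩
  intro N L a E hL1 hLN ha haN haL hW c hc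
  classical
  have hN1 : 1 ≤ N := hL1.trans hLN
  have hNpos : (0 : ℝ) < N := by exact_mod_cast hN1
  have hLpos : (0 : ℝ) < L := by exact_mod_cast hL1
  -- `E` is nonnegative
  have hE : 0 ≤ E := by
    have h1 := hW 0
    have h2 : 0 ≤ ∑ m ∈ range (N + 1), ‖∑ j ∈ range L, a (m + j) * ee (j * 0)‖ :=
      sum_nonneg fun _ _ => norm_nonneg _
    have h3 : 0 ≤ (N * L : ℝ) * E := h2.trans h1
    exact nonneg_of_mul_nonneg_right h3 (by positivity)
  -- mean squares for exponentials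
  set V : ℝ → ℝ := fun θ => ∑ m ∈ range (N + 1), ‖∑ j ∈ range L, a (m + j) * ee (j * θ)‖ ^ 2
    with hV
  have hVle : ∀ θ, V θ ≤ N * L ^ 2 * E := by
    intro θ
    have h1 : V θ ≤ ∑ m ∈ range (N + 1), L * ‖∑ j ∈ range L, a (m + j) * ee (j * θ)‖ := by
      refine sum_le_sum fun m _ => ?_
      rw [pow_two]
      refine mul_le_mul_of_nonneg_right ?_ (norm_nonneg _)
      refine (norm_sum_le _ _).trans ?_
      have : ∑ j ∈ range L, ‖a (m + j) * ee (j * θ)‖ ≤ ∑ j ∈ range L, (1 : ℝ) := by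
        refine sum_le_sum fun j _ => ?_
        rw [norm_mul, vec_ee_norm, mul_one]
        exact ha _
      refine this.trans ?_
      simp
    rw [← mul_sum] at h1
    have h2 := mul_le_mul_of_nonneg_left (hW θ) hLpos.le
    calc V θ ≤ L * (N * L * E) := h1.trans h2
      _ = N * L ^ 2 * E := by ring
  have hVc : Continuous V := by
    refine continuous_finsetSum _ fun m _ => ?_
    refine (Continuous.norm ?_).pow 2
    refine continuous_finsetSum _ fun j _ => ?_
    exact continuous_const.mul (vec_ee_cont.comp (by fun_prop))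
  have hSc : Continuous fun θ => ‖vec_S N a θ‖ ^ 2 := ((vec_S_cont N a).norm).pow 2
  -- `∫ |S|² ≤ N`
  have hS : ∫ θ in (0 : ℝ)..1, ‖vec_S N a θ‖ ^ 2 ≤ N := by
    have h1 := vec_corr N L a haN haL 0 0 (by omega) (by omega)
    have h2 : ∀ θ : ℝ, (((‖vec_S N a θ‖ ^ 2 : ℝ)) : ℂ) * ee (-(((0 : ℕ) : ℝ) - ((0 : ℕ) : ℝ)) * θ) =
        (((‖vec_S N a θ‖ ^ 2 : ℝ)) : ℂ) := by
      intro θ
      simp [ee]
    simp_rw [h2] at h1
    rw [intervalIntegral.integral_ofReal] at h1
    have h3 : vec_G N a 0 0 = ((∑ m ∈ range (N + 1), ‖a m‖ ^ 2 : ℝ) : ℂ) := by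
      unfold vec_G
      rw [Complex.ofReal_sum]
      refine sum_congr rfl fun m _ => ?_
      rw [Complex.ofReal_pow, ← Complex.mul_conj', add_zero]
    rw [h3] at h1
    have h4 : ∫ θ in (0 : ℝ)..1, ‖vec_S N a θ‖ ^ 2 = ∑ m ∈ range (N + 1), ‖a m‖ ^ 2 := by
      exact_mod_cast h1
    rw [h4, sum_range_succ', haL 0 (by omega), norm_zero]
    have h5 : ∑ m ∈ range N, ‖a (m + 1)‖ ^ 2 ≤ ∑ m ∈ range N, (1 : ℝ) := by
      refine sum_le_sum fun m _ => ?_
      have := ha (m + 1)
      have h0 := norm_nonneg (a (m + 1))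
      nlinarith
    simp at h5 ⊢
    exact h5
  -- the sum of squares of the correlations
  have hG2 : ∑ j ∈ range L, ∑ j' ∈ range L, ‖vec_G N a j j'‖ ^ 2 =
      ∫ θ in (0 : ℝ)..1, ‖vec_S N a θ‖ ^ 2 * V θ := by
    have h1 : (((∫ θ in (0 : ℝ)..1, ‖vec_S N a θ‖ ^ 2 * V θ : ℝ)) : ℂ) =
        ((∑ j ∈ range L, ∑ j' ∈ range L, ‖vec_G N a j j'‖ ^ 2 : ℝ) : ℂ) := by
      rw [← intervalIntegral.integral_ofReal]
      have h2 : ∀ θ : ℝ, (((‖vec_S N a θ‖ ^ 2 * V θ : ℝ)) : ℂ) =
          ∑ j ∈ range L, ∑ j' ∈ range L, (starRingEnd ℂ) (vec_G N a j j') *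
            ((((‖vec_S N a θ‖ ^ 2 : ℝ)) : ℂ) * ee (-((j : ℝ) - j') * θ)) := by
        intro θ
        have h3 := vec_expand N L a (fun j => ee (j * θ))
        have h4 : ((V θ : ℝ) : ℂ) = (starRingEnd ℂ) ((V θ : ℝ) : ℂ) := (Complex.conj_ofReal _).symm
        rw [Complex.ofReal_mul, h4, hV, h3, map_sum, mul_sum]
        refine sum_congr rfl fun j _ => ?_
        rw [map_sum, mul_sum]
        refine sum_congr rfl fun j' _ => ?_
        rw [map_mul, map_mul, Complex.conj_conj, vec_ee_conj]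
        have : ee (-((j : ℝ) - j') * θ) = ee (-(j * θ)) * ee (j' * θ) := by
          rw [← vec_ee_add]
          congr 1
          ring
        rw [this]
        ring
      simp_rw [h2]
      have hcont : ∀ j j' : ℕ, Continuous fun θ : ℝ => (starRingEnd ℂ) (vec_G N a j j') *
            ((((‖vec_S N a θ‖ ^ 2 : ℝ)) : ℂ) * ee (-((j : ℝ) - j') * θ)) := by
        intro j j'
        refine continuous_const.mul ?_
        exact (Complex.continuous_ofReal.comp hSc).mul (vec_ee_cont.comp (by fun_prop))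
      rw [intervalIntegral.integral_finsetSum fun j _ =>
        (continuous_finsetSum _ fun j' _ => hcont j j').intervalIntegrable _ _]
      rw [Complex.ofReal_sum]
      refine sum_congr rfl fun j hj => ?_
      rw [intervalIntegral.integral_finsetSum fun j' _ => (hcont j j').intervalIntegrable _ _,
        Complex.ofReal_sum]
      refine sum_congr rfl fun j' hj' => ?_
      rw [intervalIntegral.integral_const_mul,
        vec_corr N L a haN haL j j' (mem_range.1 hj) (mem_range.1 hj')]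
      rw [Complex.ofReal_pow, ← Complex.conj_mul']
    exact_mod_cast h1.symm
  have hG2le : ∑ j ∈ range L, ∑ j' ∈ range L, ‖vec_G N a j j'‖ ^ 2 ≤ (N * L) ^ 2 * E := by
    rw [hG2]
    have h1 : ∫ θ in (0 : ℝ)..1, ‖vec_S N a θ‖ ^ 2 * V θ ≤
        ∫ θ in (0 : ℝ)..1, ‖vec_S N a θ‖ ^ 2 * (N * L ^ 2 * E) := by
      refine intervalIntegral.integral_mono_on zero_le_one
        ((hSc.mul hVc).intervalIntegrable _ _) ((hSc.mul continuous_const).intervalIntegrable _ _) ?_
      intro θ _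
      exact mul_le_mul_of_nonneg_left (hVle θ) (sq_nonneg _)
    refine h1.trans ?_
    rw [intervalIntegral.integral_mul_const]
    calc (∫ θ in (0 : ℝ)..1, ‖vec_S N a θ‖ ^ 2) * (N * L ^ 2 * E) ≤ N * (N * L ^ 2 * E) :=
          mul_le_mul_of_nonneg_right hS (by positivity)
      _ = (N * L) ^ 2 * E := by ring
  -- conclusion
  have hfin : ∑ m ∈ range (N + 1), ‖∑ j ∈ range L, a (m + j) * c j‖ ^ 2 ≤
      ∑ j ∈ range L, ∑ j' ∈ range L, ‖vec_G N a j j'‖ := by
    have h1 := vec_expand N L a c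
    have h2 : ‖(((∑ m ∈ range (N + 1), ‖∑ j ∈ range L, a (m + j) * c j‖ ^ 2 : ℝ)) : ℂ)‖ =
        ∑ m ∈ range (N + 1), ‖∑ j ∈ range L, a (m + j) * c j‖ ^ 2 := by
      rw [Complex.norm_real, Real.norm_of_nonneg (sum_nonneg fun _ _ => sq_nonneg _)]
    rw [← h2, h1]
    refine (norm_sum_le _ _).trans (sum_le_sum fun j _ => ?_)
    refine (norm_sum_le _ _).trans (sum_le_sum fun j' _ => ?_)
    rw [norm_mul, norm_mul, RCLike.norm_conj]
    have h3 := hc j
    have h4 := hc j'
    have h5 : ‖c j‖ * ‖c j'‖ ≤ 1 := mul_le_one₀ h3 (norm_nonneg _) h4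
    exact mul_le_of_le_one_right (norm_nonneg _) h5
  have hCS : (∑ j ∈ range L, ∑ j' ∈ range L, ‖vec_G N a j j'‖) ^ 2 ≤
      (L : ℝ) ^ 2 * ∑ j ∈ range L, ∑ j' ∈ range L, ‖vec_G N a j j'‖ ^ 2 := by
    rw [← sum_product', ← sum_product']
    have := sq_sum_le_card_mul_sum_sq (s := range L ×ˢ range L)
      (f := fun p : ℕ × ℕ => ‖vec_G N a p.1 p.2‖)
    rw [card_product, card_range] at this
    refine this.trans (le_of_eq ?_)
    push_cast
    ring
  refine hfin.trans ?_
  rw [one_mul]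
  refine le_of_abs_le (abs_le_of_sq_le_sq ?_ (by positivity))
  refine hCS.trans ?_
  calc (L : ℝ) ^ 2 * ∑ j ∈ range L, ∑ j' ∈ range L, ‖vec_G N a j j'‖ ^ 2
      ≤ (L : ℝ) ^ 2 * ((N * L) ^ 2 * E) := mul_le_mul_of_nonneg_left hG2le (sq_nonneg _)
    _ = (N * (L : ℝ) ^ 2 * Real.sqrt E) ^ 2 := by
      rw [mul_pow (N * (L : ℝ) ^ 2) (Real.sqrt E), Real.sq_sqrt hE]
      ring

end Pool.Agent.Helper40.MR
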